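import Pool.Agent.Q103.KO.Stm1
import Pool.Agent.Q41.GT.Stm3

/-!
# Statements, part 2: specializations with derivations, the generic point
-/

set_option autoImplicit false

namespace Pool.Agent.Q103.KO

open Finset Polynomial FF Metric
open Pool.Agent.W602.GT
open Pool.Agent.Q41.SU
open Pool.Agent.Q41.GT
open Pool.Agent.Q103.EC
open Pool.Agent.TH466.QG (Sp)

/-- (F1) **Spreading out, with derivations.** `δ j` are the derivations dual to the transcendence basis
`t`. Proof. For `ϑ` in `Θ` let `μ` be a polynomial in `w + 1` variables over `k` with `μ(t, ϑ) = 0`,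
`μ_Y(t, ϑ) ≠ 0` (the minimal polynomial of `ϑ` over `k(t)` with denominators cleared; characteristic
zero). Apply `S_spr` (and `exists_den`) to `Θ'`, which contains `Θ`, the `t j`, the `δ j ϑ` and the
`(μ_Y(t, ϑ))⁻¹`, `ϑ` in `Θ`. Let `D` be a derivation of `E`, `τ j`, `s`, `β j` the specializations of `t j`,
`ϑ`, `δ j ϑ`. Applying `δ j` to `μ(t, ϑ) = 0` gives `μ_{t_j}(t, ϑ) + μ_Y(t, ϑ) δ j ϑ = 0`, so
`μ_{t_j}(τ, s) + μ_Y(τ, s) β j = 0`; applying `D` to `μ(τ, s) = 0` gives
`∑ μ_{t_j}(τ, s) D τ_j + μ_Y(τ, s) D s = 0`; and `μ_Y(τ, s) ≠ 0`. (`S_spr` may be assumed; it is in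
`Q103/EC/Stm3.lean`, proof by helper149.) -/
def S_spd : Prop :=
  ∀ (k K : Type) [Field k] [CharZero k] [Field K] [Algebra k K] (σ : Type) (x : σ → K),
    IntermediateField.adjoin k (Set.range x) = ⊤ → ∀ (w : ℕ) (t : Fin w → K),
    IsTranscendenceBasis k t → ∀ δ : Fin w → Derivation k K K,
    (∀ i j, δ i (t j) = if i = j then 1 else 0) → ∀ Θ : Set K, Θ.Finite →
    ∃ H : MvPolynomial σ k, MvPolynomial.aeval x H ≠ 0 ∧
      (∀ ϑ ∈ Θ, ∃ G : MvPolynomial σ k,
        ϑ * MvPolynomial.aeval x H = MvPolynomial.aeval x G) ∧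
      ∀ (E : Type) [Field E] [Algebra k E] (z : σ → E),
        (∀ G : MvPolynomial σ k, MvPolynomial.aeval x G = 0 → MvPolynomial.aeval z G = 0) →
        MvPolynomial.aeval z H ≠ 0 →
        ∃ S : Sp k K E, (∀ i, S.T (x i) (z i)) ∧ (∀ ϑ ∈ Θ, ∃ s, S.T ϑ s) ∧
          ∀ D : Derivation k E E, ∀ ϑ ∈ Θ, ∀ s, S.T ϑ s → ∃ τ β : Fin w → E,
            (∀ j, S.T (t j) (τ j)) ∧ (∀ j, S.T (δ j ϑ) (β j)) ∧ D s = ∑ j, β j * D (τ j)

open Classical in
/-- (F2) **Specialization of a map with its points and of the forms.** `s z` is the specialization of the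
point `z` of `P`. Proof. As (C2) `S_spm` (`Q103/EC/Stm3.lean`); `Θ` contains also the `α z` and their
inverses, `z` in `P`. `gfn`, `pprod`, `GG` are sums, products and quotients of these elements. -/
def S_spf : Prop :=
  ∀ (k K : Type) [Field k] [Field K] [Algebra k K] (d E₀ : ℕ) (p q : K[X]), 1 ≤ d → 1 ≤ E₀ →
    p.natDegree ≤ d → q.natDegree = d → IsCoprime p q → ∀ P : Finset K, Stab p q P →
    ∀ α : K → K, (∀ z, α z ≠ 0) →
    (∀ z ∈ P, α z ^ d = q.eval z ^ E₀ * α (p.eval z / q.eval z)) →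
    ∃ Θ : Set K, Θ.Finite ∧ ∀ (E : Type) [Field E] [Algebra k E] (S : Sp k K E),
      (∀ ϑ ∈ Θ, ∃ t, S.T ϑ t) → ∃ (p' q' : E[X]) (s : K → E) (α' : E → E), p'.natDegree ≤ d ∧
        q'.natDegree = d ∧ IsCoprime p' q' ∧ (∀ z ∈ P, S.T z (s z)) ∧ Set.InjOn s P ∧
        Stab p' q' (P.image s) ∧ (∀ c ∈ crs (P.image s), ∃ c0 ∈ crs P, S.T c0 c) ∧
        (∀ z, α' z ≠ 0) ∧
        (∀ z ∈ P.image s, α' z ^ d = q'.eval z ^ E₀ * α' (p'.eval z / q'.eval z)) ∧
        S.T (GG E₀ d α p q P) (GG E₀ d α' p' q' (P.image s)) ∧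
        ∀ (J : Type) [Fintype J] (x : J → K), Function.Injective x → (∀ l, x l ∈ P) →
          S.T (pprod (gfn E₀ d α p q) x) (pprod (gfn E₀ d α' p' q') fun l => s (x l)) ∧
          S.T (pprod (fun z z' => z - z') x) (pprod (fun z z' => z - z') fun l => s (x l))

/-- (F3) **Nondegeneracy at the generic point.** Proof. As in (H7) `S_data` (`Q41/GT/Stm2.lean`; proof in the
library): by `S_red` choose a stable subset `P'` with `Sur p q P'` and at least `max N₀ (3 d + 4)` elements,
`N₀` from `S_ndw`; `K` is algebraic over `adjoin k (crs P')` by `S_crs`. For `x` in `P'` the polynomial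
`Q_x = wro φ x (∑ j, δ j (x l) X_j)` is homogeneous of degree `cst φ`. No common zero: for `λ ≠ 0` in
`E ^ w`, `E = AlgebraicClosure K`, there is a derivation `D'` of `E` over `k` with `D'(t_j) = λ_j`
(`exists_der`; `t` is a transcendence basis of `E`), and `D'(x l) = ∑ δ j (x l) λ_j` (both sides are
derivations `K → E` which agree on `t`), so by `S_ndw` some `Q_x(λ) ≠ 0`. By (K1) `S_nul` with `j = 1` the
polynomial `X_{j₀} ^ (M₀ + cst φ)` is a `K`-linear combination of the products of a `Q_x` and a monomial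
of degree `M₀`. (`S_ndw`, `S_crs`, `S_red`, `S_nul` may be assumed.) -/
def S_gen : Prop :=
  ∀ (d a b : ℕ) (φ : II a b → ℕ × ℕ), 2 ≤ d → Cols a b φ → 1 ≤ cst φ → ∃ B : ℕ,
    ∀ (k K : Type) [Field k] [CharZero k] [Field K] [Algebra k K] (p q : K[X]),
    p.natDegree ≤ d → q.natDegree = d → IsCoprime p q → ∀ P : Finset K, Stab p q P →
    B ≤ P.card → Algebra.IsAlgebraic (IntermediateField.adjoin k (crs P)) K →
    ∃ P' ⊆ P, Stab p q P' ∧ ∀ (w : ℕ) (t : Fin w → K), IsTranscendenceBasis k t →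
      ∀ δ : Fin w → Derivation k K K, (∀ i j, δ i (t j) = if i = j then 1 else 0) →
      ∃ M₀ : ℕ, ∀ j₀ : Fin w, ∃ g : (II a b → K) → MvPolynomial (Fin w) K,
        (∀ x, (g x).IsHomogeneous M₀) ∧
        (MvPolynomial.X j₀ : MvPolynomial (Fin w) K) ^ (M₀ + cst φ) =
          ∑ x ∈ Fintype.piFinset fun _ : II a b => P',
            wro φ (fun l => MvPolynomial.C (x l))
              (fun l => ∑ j, MvPolynomial.C (δ j (x l)) * MvPolynomial.X j) * g x

/-- (F4) **The derivatives of discs are locally bounded** off a proper closed subset. Proof. `a`, `b`, `φ`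
from (E5) `S_ldk`, `B` from (F3); let `P'` be as in (F3), `n = |P'|`, `E₀`, `α` from `S_alp` (for
`P'`), `C'` from (E5). Choose `i₁` with `x i₁ ≠ 0`, put `u i = x i / x i₁` (they generate `K`, `adjoin_norm`)
and choose a transcendence basis `t` of `K` over `ℂ` (finite), the dual derivations `δ` (`exists_dual`) and
`M₀`, `g` from (F3). Let `Θ` be the finite set of the following elements: the set of (F2), the elements of
`P'`, the `t j`, `u i`, the `δ j z` (`z` in `P'`), `δ j (u i)`, the coefficients of the `g x` (for all `j₀`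
and `x` in `P'`), the elements of `crs P'` and their inverses, `GG`, and for the injective `x` in
`P'` the `pprod (gfn …) x`, `pprod (z - z') x` and all their inverses. Let `H` be from (F1) for `u`
and `Θ`, `R = X i₁ * hz i₁ H` (`Pool.Agent.TH466.QG.hz`). Let `a` be a point with
`R(a) ≠ 0`, `a' i = a i / a i₁`; so `H(a') ≠ 0`. For `ϑ` in `Θ` let `G_ϑ` be as in (F1) and
`ϑ(a') = G_ϑ(a') / H(a')`. Choose `r` such that for all `b` with `‖b i - a' i‖ < r` the `H(b)` are bounded
away from zero and all the `ϑ(b)`, `ϑ` in `Θ`, are bounded by a constant `C₀`; for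
`ϑ` in `Θ` with `ϑ⁻¹` in `Θ` also `‖ϑ(b)⁻¹‖ ≤ C₀` (as `ϑ(b) ϑ⁻¹(b) = 1` at points `b` of the variety). Let
`g` be a disc with `b = (g 0 i / g 0 i₁)_i` near `a'`. The functions `t ↦ g (t / 8) i / g (t / 8) i₁` define
elements `z i` of `DK`, regular at `0`, which satisfy the relations of the `u i` (compare the beginning of
`Pool.Agent.Y221.PD.picard_main` or the proof of `Pool.Agent.Q53.EC.t_pic`), and `H(z) ≠ 0` as
`H(z)(0) = H(b) ≠ 0`. (F1) gives `S`; `s H(z) = G_ϑ(z)` if `S.T ϑ s`, so `s` is regular at `0` with the value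
`ϑ(b)`. (F2) gives `p'`, `q'`, `s`, `α'` over `DK`, the points `P'.image s`, with `|P'|` elements. The cross
ratios `c` of these points are specializations of elements of `crs P'`, so (E5) applies with a `Λ` which
depends only on `C₀`: for all injective rows `x` in `P'`, `x̂ l = s (x l)`, the value at `0` of
`PhiY … x̂ DDer ^ C' * GG …` is bounded by `lam`. As `GG`, `pprod …` and their inverses are bounded at
`0` so is `W_x(0)`, `W_x = wro φ x̂ (DDer ∘ x̂)`. By (F1) `DDer (s z) = ∑ β_j(z) λ_j`,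
`λ_j = DDer (τ j)`, so the identity of (F3), specialized coefficient by coefficient by `S` and evaluated at
`λ`, is `λ_{j₀} ^ (M₀ + cst φ) = ∑ W_x * ĝ_x(λ)` (`W_x = 0` if `x` is not injective). The values at `0`:
`‖λ(0)‖ ^ (M₀ + cst φ) ≤ C₁ ‖λ(0)‖ ^ M₀` for the maximum norm, so `‖λ(0)‖` is bounded. Finally
`DDer (z i) = ∑ (specialization of δ j (u i)) λ_j`, whose value at `0` is `1 / 8` times the derivative of
`g i / g i₁` at `0`. (`S_ldk`, `S_gen`, `S_spd`, `S_spf`, `S_alp` may be assumed.) -/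
def S_dbd : Prop :=
  ∀ d : ℕ, 2 ≤ d → ∃ B : ℕ, ∀ (K : Type) [Field K] [Algebra ℂ K] (M : ℕ) (x : Fin (M + 1) → K),
    x ≠ 0 → coords ℂ x = ⊤ → ∀ p q : K[X], p.natDegree ≤ d → q.natDegree = d → IsCoprime p q →
    ∀ P : Finset K, Stab p q P → B ≤ P.card →
    Algebra.IsAlgebraic (IntermediateField.adjoin ℂ (crs P)) K → DBound x

/-- (F5) **From derivatives to the Kobayashi distance.** Proof. `Chain` is symmetric (reverse the chain;
`poin s t = poin t s`), so let `R(a) ≠ 0`, `b` another point. Put `u_i(c) = c i / c i₁`. Let `r`, `C` be from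
`DBound` at `a` and let `0 < ρ < r` be such that `b i₁ = 0` or `‖u_i(b) - u_i(a)‖ ≥ ρ` for some `i` (such a
`ρ` exists, otherwise `SameP a b`). Claim: `ε = ρ / (2 C)` works. (1) One disc: let `g` be a disc, `s`, `t` in
the unit disc, `g s i₁ ≠ 0`, `‖u_i(g s) - u_i(a)‖ ≤ η` for all `i`, and `η + C poin s t < ρ`. Then `g t i₁ ≠ 0` and
`‖u_i(g t) - u_i(a)‖ ≤ η + C poin s t`. Composing `g` with the automorphism
`ζ ↦ (ζ + s) / (1 + conj s ζ)` we may assume `s = 0` (`poin` is invariant). For `w` in the unit disc with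
`g w i₁ ≠ 0`, `‖u_i(g w) - u_i(a)‖ < r`, the disc `ζ ↦ g ((ζ + w) / (1 + conj w ζ))` shows that the derivative
of `u_i ∘ g` at `w` is at most `C / (1 - ‖w‖ ^ 2)`. Let `v` be the supremum of the `v` in `[0, 1]` such that
`g (v' t) i₁ ≠ 0` and `‖u_i(g (v' t)) - u_i(a)‖ ≤ η + C poin 0 (v' t)` for all `v' ≤ v` and `i`. At `v` the
inequality also holds (`g i₁` can not vanish at `v t`: otherwise `u_i ∘ g` is bounded near `v t` on the
segment for all `i`, so all `g i` vanish at `v t`), and if `v < 1` the set is larger: for `v'` near `v` all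
`‖u_i(g (v' t)) - u_i(a)‖ < r`, and the derivative of `v' ↦ poin 0 (v' t)` is
`‖t‖ / (1 - ‖v' t‖ ^ 2)`, so integrate the bound for the derivative from `v` to `v'`
(`image_norm_le_of_norm_deriv_right_le_deriv_boundary` or a similar mean value theorem). (2) By induction
on the chain: if the total length of a chain from `a` is less than `ε` then all its points satisfy
`‖u_i - u_i(a)‖ ≤ C (length) < ρ`, so the end point is not `b`. -/
def S_kob : Prop :=
  ∀ (K : Type) [Field K] [Algebra ℂ K] (M : ℕ) (x : Fin (M + 1) → K), DBound x →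
    PseudoKobayashi x

end Pool.Agent.Q103.KO
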