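import Pool.Agent.Q103.EC.All
import Pool.Agent.Q209.KO.Loz
import Pool.Agent.Q209.KO.Lan
import Pool.Agent.Q209.KO.Spf
import Pool.Agent.Q151.KO.Ldk
import Pool.Agent.Q151.KO.Gen
import Pool.Agent.Q151.KO.Kob
import Pool.Agent.Q153.KO.Nrm
import Pool.Agent.Q153.KO.Spd
import Pool.Agent.Q144.KO.E4
import Pool.Agent.Q144.KO.F4

/-!
# The statements of the project KO, without hypotheses
-/

set_option autoImplicit false

namespace Pool.Agent.Q103.KO

open Pool.Agent.Q103.EC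
open Pool.Agent.Q41.SU
open Pool.Agent.Q41.GT
open Pool.Agent.W602.GT
open Polynomial

theorem k_lan : S_lan := Pool.Agent.Q209.KO.lan Pool.Agent.Q209.KO.loz

theorem k_nrm : S_nrm := Pool.Agent.Q153.KO.t_nrm

theorem k_uni : S_uni := Pool.Agent.Q144.KO.t_uni b_intg

theorem k_ldk : S_ldk := Pool.Agent.Q151.KO.ldk k_lan k_nrm k_uni

theorem k_spd : S_spd := Pool.Agent.Q153.KO.t_spd Pool.Agent.Q149.EC.t_spr

theorem k_gen : S_gen :=
  Pool.Agent.Q151.KO.gen a_ndw a_crs Pool.Agent.Q24.SU.t_red.{0} Pool.Agent.Q223.GT.t_nul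

theorem k_dbd : S_dbd := Pool.Agent.Q144.KO.t_dbd k_ldk k_gen k_spd Pool.Agent.Q209.KO.spf
  Pool.Agent.Q166.GT.Alp.t_alp

/-- **Kobayashi hyperbolicity modulo a proper closed subset.** -/
theorem kobayashi (d : ℕ) (hd : 2 ≤ d) : ∃ B : ℕ, ∀ (K : Type) [Field K] [Algebra ℂ K] (M : ℕ)
    (x : Fin (M + 1) → K), x ≠ 0 → coords ℂ x = ⊤ → ∀ p q : K[X], p.natDegree ≤ d →
    q.natDegree = d → IsCoprime p q → ∀ P : Finset K, Stab p q P → B ≤ P.card →
    Algebra.IsAlgebraic (IntermediateField.adjoin ℂ (crs P)) K → PseudoKobayashi x := by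
  obtain ⟨B, hB⟩ := k_dbd d hd
  exact ⟨B, fun K _ _ M x hx hgen p q hp hq hpq P hP hc halg =>
    Pool.Agent.Q151.KO.kob K M x (hB K M x hx hgen p q hp hq hpq P hP hc halg)⟩

end Pool.Agent.Q103.KO
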