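import Pool.Agent.Q103.KO.Plc
import Pool.Agent.Q103.EC.Stm2
import Pool.Agent.TH466.QG.Strong
import Pool.Agent.TH152.HY.Ext

/-!
# Kobayashi hyperbolicity of dynamical moduli spaces: definitions

`DK` is the field of the meromorphic functions on the disc `Dm` of radius eight, `DDer` the derivation
`d / dt`, `Reg x z`: `x` is holomorphic at `z`, `Fn x` the function (files `Fld`, `Fn`, `Plc` in this
folder).
-/

set_option autoImplicit false

namespace Pool.Agent.Q103.KO

open Finset Polynomial FF Metric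
open Pool.Agent.W602.GT
open Pool.Agent.Q41.SU
open Pool.Agent.Q41.GT
open Pool.Agent.Q103.EC

/-- quadruples of indices -/
abbrev Ix (n : ℕ) : Type := Fin n × Fin n × Fin n × Fin n

/-- the logarithmic derivatives of the cross ratios of the points `z i`, where `y (z i)` stands for the
derivative of `z i` -/
noncomputable def lgJ {n : ℕ} {K : Type} [Field K] (z : Fin n → K) (y : K → K) (i : Ix n) : K :=
  if i.1 ≠ i.2.1 ∧ i.2.2.1 ≠ i.2.2.2 ∧ i.1 ≠ i.2.2.2 ∧ i.2.2.1 ≠ i.2.1 then
    lgd z (fun j => y (z j)) i.1 i.2.1 i.2.2.1 i.2.2.2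
  else 0

/-- `t ↦ (g t 0 : ... : g t M)` is a holomorphic map from the unit disc to the projective variety with
the generic point `x` (the variety of the forms which vanish at `x`). -/
structure Disc {M : ℕ} {L : Type} [Field L] [Algebra ℂ L] (x : Fin (M + 1) → L)
    (g : ℂ → Fin (M + 1) → ℂ) : Prop where
  hol : ∀ i, DifferentiableOn ℂ (fun t => g t i) (ball 0 1)
  ne : ∀ t ∈ ball (0 : ℂ) 1, g t ≠ 0
  mem : ∀ G : MvPolynomial (Fin (M + 1)) ℂ, IsForm G → val x G = 0 →
    ∀ t ∈ ball (0 : ℂ) 1, MvPolynomial.eval (g t) G = 0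

/-- `a` is a point of the projective variety with the generic point `x`. -/
def IsPoint {M : ℕ} {L : Type} [Field L] [Algebra ℂ L] (x : Fin (M + 1) → L)
    (a : Fin (M + 1) → ℂ) : Prop :=
  a ≠ 0 ∧ ∀ G : MvPolynomial (Fin (M + 1)) ℂ, IsForm G → val x G = 0 → MvPolynomial.eval a G = 0

/-- the same point of the projective space -/
def SameP {M : ℕ} (a b : Fin (M + 1) → ℂ) : Prop := ∃ c : ℂ, c ≠ 0 ∧ b = c • a

/-- the Poincare distance of two points of the unit disc -/
noncomputable def poin (a b : ℂ) : ℝ :=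
  1 / 2 * Real.log ((1 + ‖(a - b) / (1 - (starRingEnd ℂ) b * a)‖) /
    (1 - ‖(a - b) / (1 - (starRingEnd ℂ) b * a)‖))

/-- `Chain x a b l`: the points `a`, `b` are joined by a finite chain of holomorphic discs whose sum of
Poincare distances is `l`. -/
inductive Chain {M : ℕ} {L : Type} [Field L] [Algebra ℂ L] (x : Fin (M + 1) → L) :
    (Fin (M + 1) → ℂ) → (Fin (M + 1) → ℂ) → ℝ → Prop
  | nil (a b : Fin (M + 1) → ℂ) : SameP a b → Chain x a b 0
  | cons (a b : Fin (M + 1) → ℂ) (g : ℂ → Fin (M + 1) → ℂ) (s t : ℂ) (l : ℝ) :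
      Disc x g → s ∈ ball (0 : ℂ) 1 → t ∈ ball (0 : ℂ) 1 → SameP a (g s) → Chain x (g t) b l →
      Chain x a b (poin s t + l)

/-- **Pseudo-Kobayashi hyperbolicity**: there is a proper closed subset `R = 0` such that the Kobayashi
pseudodistance of two different points which are not both in this subset is positive (the lengths of
the chains of holomorphic discs which join them are bounded below by a positive number). -/
def PseudoKobayashi {M : ℕ} {L : Type} [Field L] [Algebra ℂ L] (x : Fin (M + 1) → L) : Prop :=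
  ∃ R : MvPolynomial (Fin (M + 1)) ℂ, IsForm R ∧ val x R ≠ 0 ∧
    ∀ a b : Fin (M + 1) → ℂ, IsPoint x a → IsPoint x b → ¬ SameP a b →
      (MvPolynomial.eval a R ≠ 0 ∨ MvPolynomial.eval b R ≠ 0) →
      ∃ ε : ℝ, 0 < ε ∧ ∀ l : ℝ, Chain x a b l → ε ≤ l

/-- **Derivatives of discs**: off a proper closed subset `R = 0` the derivatives of the holomorphic
discs are locally bounded. -/
def DBound {M : ℕ} {L : Type} [Field L] [Algebra ℂ L] (x : Fin (M + 1) → L) : Prop :=
  ∃ (i₁ : Fin (M + 1)) (R : MvPolynomial (Fin (M + 1)) ℂ), IsForm R ∧ val x R ≠ 0 ∧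
    (∀ a : Fin (M + 1) → ℂ, MvPolynomial.eval a R ≠ 0 → a i₁ ≠ 0) ∧
    ∀ a : Fin (M + 1) → ℂ, IsPoint x a → MvPolynomial.eval a R ≠ 0 →
      ∃ r C : ℝ, 0 < r ∧ 0 < C ∧ ∀ g, Disc x g → g 0 i₁ ≠ 0 →
        (∀ i, ‖g 0 i / g 0 i₁ - a i / a i₁‖ < r) →
        ∀ i, ‖deriv (fun t => g t i / g t i₁) 0‖ ≤ C

end Pool.Agent.Q103.KO
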