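import Pool.Agent.Q103.KO.Fn
import Pool.Agent.Q41.GT.Defs

/-!
# The place of a point (after `Pool/Agent/Q224/EC/Plc.lean` of helper224)
-/

set_option autoImplicit false

namespace Pool.Agent.Q103.KO

open Filter Topology FF
open Pool.Agent.W602.GT

theorem odr_zero' {z : ℂ} (hz : z ∈ Dm) : odr 0 z = ⊤ := by
  unfold odr
  rw [meromorphicOrderAt_eq_top_iff]
  have h := Fn_const 0 hz
  rw [map_zero] at h
  exact h.filter_mono nhdsWithin_le_nhds

theorem odr_coe {x : DK} (hx : x ≠ 0) {z : ℂ} (hz : z ∈ Dm) :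
    ((((odr x z).untopD 0 : ℤ)) : WithTop ℤ) = odr x z := by
  obtain ⟨m, hm⟩ := WithTop.ne_top_iff_exists.1 (odr_ne_top hx hz)
  rw [← hm]
  rfl

theorem mero_lin (z : ℂ) : MeromorphicOn (fun w : ℂ => w - z) Dm := fun _ _ =>
  ((analyticAt_id.sub analyticAt_const : AnalyticAt ℂ (fun w : ℂ => w - z) _)).meromorphicAt

theorem ord_lin (z : ℂ) : meromorphicOrderAt (fun w : ℂ => w - z) z = (1 : ℤ) := by
  have h : AnalyticAt ℂ (fun w : ℂ => w - z) z := analyticAt_id.sub analyticAt_const
  rw [meromorphicOrderAt_eq_int_iff h.meromorphicAt]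
  refine ⟨fun _ => 1, analyticAt_const, one_ne_zero, ?_⟩
  refine Filter.Eventually.of_forall fun w => ?_
  rw [zpow_one, smul_eq_mul, mul_one]

theorem odr_add {x y : DK} {z : ℂ} (hz : z ∈ Dm) : min (odr x z) (odr y z) ≤ odr (x + y) z := by
  unfold odr
  rw [meromorphicOrderAt_congr (f₁ := Fn (x + y)) (f₂ := Fn x + Fn y)
    (cod_ev (Fn_add_codis x y) hz)]
  exact meromorphicOrderAt_add (Fn_mero x z hz) (Fn_mero y z hz)

/-- the place of a point -/
noncomputable def plc (z : ℂ) (hz : z ∈ Dm) : Place ℂ DK where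
  ord x := (odr x z).untopD 0
  ord_zero := by
    rw [odr_zero' hz]
    rfl
  ord_mul := by
    intro f g hf hg
    have h := odr_mul f g hz
    rw [← odr_coe hf hz, ← odr_coe hg hz, ← odr_coe (mul_ne_zero hf hg) hz] at h
    exact_mod_cast h
  ord_add := by
    intro f g hf hg hfg
    have h := odr_add (x := f) (y := g) hz
    rw [← odr_coe hf hz, ← odr_coe hg hz, ← odr_coe hfg hz] at h
    exact_mod_cast h
  ord_const := by
    intro c hc
    have h : odr (algebraMap ℂ DK c) z = 0 := by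
      rw [odr_zero_iff hz, (Fn_const c hz).self_of_nhds]
      exact hc
    rw [h]
    rfl
  surj := by
    have h : odr (cl (fun w : ℂ => w - z) (mero_lin z)) z = (1 : ℤ) := by
      rw [odr_cl _ hz]
      exact ord_lin z
    refine ⟨cl (fun w : ℂ => w - z) (mero_lin z), ?_, ?_⟩
    · intro h0
      rw [h0, odr_zero' hz] at h
      exact WithTop.top_ne_coe h
    · rw [h]
      rfl

theorem plc_reg (z : ℂ) (hz : z ∈ Dm) (x : DK) :
    (plc z hz).Reg x ↔ Pool.Agent.Q103.KO.Reg x z := by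
  by_cases hx : x = 0
  · subst hx
    constructor
    · intro _
      have := reg_const 0 hz
      rw [map_zero] at this
      exact this
    · intro _
      exact (plc z hz).reg_zero
  · rw [(plc z hz).reg_iff hx, reg_iff hz, ← odr_coe hx hz]
    show 0 ≤ (odr x z).untopD 0 ↔ _
    exact_mod_cast Iff.rfl

/-- **The place of a point.** -/
theorem exists_place : ∀ z ∈ Dm, ∃ v : Place ℂ DK, (∀ x, v.Reg x ↔ Pool.Agent.Q103.KO.Reg x z) ∧
    DerReg v DDer := by
  intro z hz
  refine ⟨plc z hz, plc_reg z hz, ?_⟩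
  intro f hf
  rw [plc_reg] at hf ⊢
  rw [DDer_apply]
  exact hf.MD hz

end Pool.Agent.Q103.KO
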