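import Pool.Agent.Q103.KO.Defs

/-!
# Statements, part 1: a Landau theorem
-/

set_option autoImplicit false

namespace Pool.Agent.Q103.KO

open Finset Polynomial FF Metric
open Pool.Agent.W602.GT
open Pool.Agent.Q41.SU
open Pool.Agent.Q41.GT
open Pool.Agent.Q103.EC
open Pool.Agent.W602.NC (sup)
open Pool.Agent.TH152.HY (Calm)

/-- (E1) **Approximation by entire functions with the same zeros.** Proof. `f` has finitely many zeros
in `closedBall 0 (13 / 2)` (it is not identically zero); let `P` be the polynomial with these zeros,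
`f = P * k`, `k` holomorphic on `ball 0 7` without zeros in `closedBall 0 (13 / 2)`. So `k = exp κ` on
`ball 0 (13 / 2)` with a holomorphic `κ` (`k' / k` has a primitive on a disc). The Taylor polynomials
`κ_m` of `κ` converge uniformly on `closedBall 0 6`. Put `g = P * exp κ_m`, `h = exp (κ - κ_m)`. (Compare
`factor_ball` in `Pool.Agent.H159R3.NV.Factor`.) -/
def S_loz : Prop :=
  ∀ f : ℂ → ℂ, DifferentiableOn ℂ f (ball 0 7) → f 0 ≠ 0 → ∀ η : ℝ, 0 < η →
    ∃ g h : ℂ → ℂ, Differentiable ℂ g ∧ ∀ z ∈ closedBall (0 : ℂ) 6, f z = h z * g z ∧ ‖h z - 1‖ ≤ η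

/-- (E2) **A Landau theorem.** Proof. Suppose `1 ≤ ‖Q 0‖`, `1 ≤ C₁` (otherwise there is nothing to prove,
resp. enlarge `C₁`). By (E1) with a small `η` let `g i`, `q` be entire functions, `U i = h i * g i`,
`Q = h * q` on `closedBall 0 6`; `Base g Λ'` (`Pool.Agent.W602.NC.Base`) with `Λ' = Λ + 1`. Let
`1 ≤ r`, `0 < δ ≤ 1`, `r + 4 δ ≤ 5`. `Base.good` gives `s` in `[r, r + δ]` and `ε` such that for `‖z‖ = s` the
`g i` have no zeros on `closedBall z ε` and `‖g j w / g i w‖ ≤ e ‖g j z / g i z‖` there,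
`1 / ε ≤ 2 * (1000 (r + 4 δ) ^ 3 (SS g Λ' (r + 4 δ) + 1) ^ 2 / δ ^ 4)`. As `s + ε ≤ 6` the disc is in
`closedBall 0 6` and `Calm U z ε (e ^ 2)` (`η` small), so `log ‖q z‖ + log (sup g z) ≤ C₂ + A log (1 / ε)`
(`C₂` depends on `A`, `C₁`). Take the mean over `‖z‖ = s`: by Jensen's formula (`jensen_entire`) the mean of
`log ‖q‖` is at least `log ‖q 0‖ ≥ log ‖Q 0‖ - 1`, so
`tau g s + log ‖Q 0‖ ≤ C₂ + 1 + A log (1 / ε)` (∗) (compare the proof of `Pool.Agent.W601.PH.circle2`). With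
`log ‖Q 0‖ ≥ 0` and `SS g Λ' r ≤ SS g Λ' s ≤ (N + 1) (tau g s + Λ')` (see `Pool.Agent.W601.PH.log_growth2`) this
gives the recursion of `Pool.Agent.H159R3.NV.growth` with `r0 = 2`, so `SS g Λ' 2` is bounded in terms of
`N`, `A`, `Λ`, `C₁`. Use (∗) once more with `r = 1`, `δ = 1 / 4` and `tau g s ≥ -Λ'` (`Base.L_ge`). -/
def S_lan : Prop :=
  ∀ (N A : ℕ) (Λ C₁ : ℝ), ∃ lam : ℝ, ∀ (U : Fin (N + 1) → ℂ → ℂ) (Q : ℂ → ℂ),
    (∀ i, DifferentiableOn ℂ (U i) (ball 0 7)) → DifferentiableOn ℂ Q (ball 0 7) →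
    (∀ i, U i 0 ≠ 0 ∧ |Real.log ‖U i 0‖| ≤ Λ) →
    (∀ z ε B, 0 < ε → ε ≤ 1 → 1 ≤ B → closedBall z ε ⊆ ball 0 7 → Calm U z ε B →
      ‖Q z‖ * sup U z ≤ C₁ * (B / ε) ^ A) →
    ‖Q 0‖ ≤ lam

/-- (E3) **Normalization.** Proof. Only finitely many points of `closedBall 0 7` are poles of one of the
`u i`; let `e` be a polynomial with `e 0 = 1` whose order of vanishing at each of them is the largest pole
order of the `u i` there (`0` is not a pole). `U i` is the holomorphic extension of `e * u i`. `Q` is the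
extension of `F / e`: near `z` choose `i` with `U i z ≠ 0`, there `F / e = (F * u i) / U i`. -/
def S_nrm : Prop :=
  ∀ (N : ℕ) (u : Fin (N + 1) → DK), u 0 = 1 → (∀ i, Reg (u i) 0 ∧ Fn (u i) 0 ≠ 0) →
    ∃ U : Fin (N + 1) → ℂ → ℂ, (∀ i, DifferentiableOn ℂ (U i) (ball 0 7)) ∧
      (∀ i, U i 0 = Fn (u i) 0) ∧ (∀ z ∈ ball (0 : ℂ) 7, ∃ i, U i z ≠ 0) ∧
      (∀ z ∈ ball (0 : ℂ) 7, U 0 z ≠ 0 → ∀ i, Reg (u i) z ∧ U i z = Fn (u i) z * U 0 z) ∧
      ∀ F : DK, (∀ i, ∀ z ∈ Dm, Reg (F * u i) z) → ∃ Q : ℂ → ℂ, DifferentiableOn ℂ Q (ball 0 7) ∧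
        ∀ i, ∀ z ∈ ball (0 : ℂ) 7, Q z * U i z = Fn (F * u i) z

/-- (E4) **Uniform integrality.** The conclusion of `S_intg` with finitely many equations over the
rational numbers. Proof. Same `a`, `b`, `φ`, `C'` as in `S_intg` (with `k = ℚ`), which also gives the last
clause. It is enough to prove that there is a finite set for fixed maps `r : II a b → Fin n`,
`σ : Fin n → Fin n` and a fixed kind of `h` (`GG` or the product of `GG` with the cross ratio with given
indices), for the data with `x l = z (r l)`, `p(z i) / q(z i) = z (σ i)`: take the union. Suppose there is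
none; enumerate the monic polynomials `e_0, e_1, …` over the countable ring `MvPolynomial (Ix n) ℚ`. For
each `m` there are data over a field `K_m` for which none of `e_0, …, e_m` works. Let `R = ∏ K_m`, `𝔪` a
maximal ideal which contains all `r` with only finitely many nonzero components, `K* = R / 𝔪`, a field of
characteristic zero (`R` is a `ℚ`-algebra). An element of `R` all of whose components are different from
zero is a unit. The classes of the sequences of the coefficients of the `p_m`, `q_m`, of the points, of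
the values of `α` and `y` are data over `K*` of the same kind (the points are different, the leading
coefficient of `q` and the resultant are not zero, `α` is not zero), and `PhiY … ^ C' * h` and the `lgJ`
are the classes of the sequences of the corresponding elements of the `K_m` (sums, products, quotients
with denominators without zero components; `α`, `y` are extended by `1`, `0` outside of the points). By
`S_intg` over `k = ℚ` some monic `e_j` vanishes at them (the coefficients are in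
`Algebra.adjoin ℚ (lgs P y)`, and each element of `lgs P y` is an `lgJ`). So the sequence of the values of
`e_j` at the data of the `K_m` is in `𝔪`; but its components with `m ≥ j` are not zero, so it is a unit
modulo the ideal of the sequences with finitely many nonzero components, a contradiction. -/
def S_uni : Prop :=
  ∀ d : ℕ, 2 ≤ d → ∃ (a b : ℕ) (φ : II a b → ℕ × ℕ), 1 ≤ b ∧ b ≤ a ∧ 2 ≤ a ∧ Cols a b φ ∧
    1 ≤ cst φ ∧ ∀ n E₀ : ℕ, 1 ≤ E₀ → ∃ C' : ℕ, 1 ≤ C' ∧
    ∃ ee : Finset (Polynomial (MvPolynomial (Ix n) ℚ)), (∀ e ∈ ee, e.Monic) ∧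
    ∀ (K : Type) [Field K] [CharZero K] (p q : K[X]),
    p.natDegree ≤ d → q.natDegree = d → IsCoprime p q → ∀ z : Fin n → K, Function.Injective z →
    ∀ P : Finset K, (P : Set K) = Set.range z → Stab p q P →
    ∀ α : K → K, (∀ z, α z ≠ 0) →
    (∀ z ∈ P, α z ^ d = q.eval z ^ E₀ * α (p.eval z / q.eval z)) →
    ∀ y : K → K, ∀ x : II a b → K, Function.Injective x → (∀ l, x l ∈ P) →
    ∀ h ∈ hfs E₀ d α p q P,
    (∃ e ∈ ee, Polynomial.eval₂ ((MvPolynomial.aeval (lgJ z y) : MvPolynomial (Ix n) ℚ →ₐ[ℚ] K) :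
      MvPolynomial (Ix n) ℚ →+* K) (PhiY φ E₀ d α p q x y ^ C' * h) e = 0) ∧
    ∀ (k : Type) [Field k] [CharZero k] [Algebra k K] (v : Place k K) (D : Derivation k K K),
      DerReg v D → (∀ z ∈ P, y z = D z) → v.Reg (PhiY φ E₀ d α p q x y ^ C' * h)

/-- (E5) **A Landau theorem for maps over the field of the meromorphic functions on a disc.** Proof.
Constants from (E4). Let `u` be the list of `1` and the elements of `crs P` (at most `n ^ 4` elements;
repeat elements so that the length depends only on `n`), `F = PhiY … ^ C' * GG …`. By (E4) and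
`exists_place` all `F * u i` are holomorphic on `Dm`. Let `U`, `Q` be as in (E3); `Q 0 = F(0)` as `U 0 0 = 1`.
On a calm disc `Calm U z ε B` (in `ball 0 7`) the functions `c = u j = U j / U 0` are holomorphic without
zeros and `‖c w‖ ≤ B ‖c z‖`, so `‖c'(z) / c(z)‖ ≤ B / ε` by Cauchy's estimate; the `lgJ` (`y = DDer`) are
`0` or `DDer c / c` with `c` in `crs P` (see `S_mer`, proof in `Pool/Agent/Q38/EC/Mer.lean`, and (B3) `S_ana`). So
by (E4) `‖Q z‖ ‖U i z‖ = ‖(F * u i)(z)‖ ≤ C₁ (B / ε) ^ A`, with `C₁`, `A` depending only on the finite set of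
equations: `‖y‖ ≤ 1 + ∑ ‖a_k‖` for a root `y` of a monic polynomial (`Pool.Agent.Y221.AP.root_bd`). Apply
(E2). (`S_lan`, `S_nrm`, `S_uni` may be assumed.) -/
def S_ldk : Prop :=
  ∀ d : ℕ, 2 ≤ d → ∃ (a b : ℕ) (φ : II a b → ℕ × ℕ), 1 ≤ b ∧ b ≤ a ∧ 2 ≤ a ∧ Cols a b φ ∧
    1 ≤ cst φ ∧ ∀ n E₀ : ℕ, 1 ≤ E₀ → ∃ C' : ℕ, 1 ≤ C' ∧ ∀ Λ : ℝ, ∃ lam : ℝ,
    ∀ p q : DK[X], p.natDegree ≤ d → q.natDegree = d → IsCoprime p q →
    ∀ P : Finset DK, Stab p q P → P.card = n → ∀ α : DK → DK, (∀ z, α z ≠ 0) →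
    (∀ z ∈ P, α z ^ d = q.eval z ^ E₀ * α (p.eval z / q.eval z)) →
    (∀ c ∈ crs P, Reg c 0 ∧ Fn c 0 ≠ 0 ∧ |Real.log ‖Fn c 0‖| ≤ Λ) →
    ∀ x : II a b → DK, Function.Injective x → (∀ l, x l ∈ P) →
    Reg (PhiY φ E₀ d α p q x (fun z => DDer z) ^ C' * GG E₀ d α p q P) 0 ∧
    ‖Fn (PhiY φ E₀ d α p q x (fun z => DDer z) ^ C' * GG E₀ d α p q P) 0‖ ≤ lam

end Pool.Agent.Q103.KO
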